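import Pool.Agent.Helper14.XP.VAP

set_option autoImplicit false

namespace Pool.Agent.Helper14.XP

open Finset
open Pool.Agent.Helper81.XP

theorem bde_rr : (0 : ℝ) < rr := by
  unfold rr LL
  norm_num

/-- a point of the class near a good point -/
theorem bde_pt (hR : ST_RED) (k : Type) [Field k] (e : Fin 3 → k) (he : Good e) :
    ∃ P : Fin 3 → Om k, InCls P := by
  obtain ⟨⟨O, hO⟩, hO2⟩ := st_VAP k 0
  have hOO := hO2 O hO
  obtain ⟨hc, ht⟩ := hO
  rw [map_zero, sub_zero] at ht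
  refine ⟨fun i => algebraMap k (Om k) (e i) + if i = 0 then tt k else 0, ?_, ?_, ?_⟩
  · refine (hR k (Om k) O e _ hc ?_).2 he
    intro i
    by_cases hi : i = 0
    · simp [hi, ht]
    · simp [hi]
  · intro i
    have h1 : IsIntegral (Polynomial k) (algebraMap k (Om k) (e i)) := by
      rw [← vap_C]
      exact isIntegral_algebraMap
    have h2 : IsIntegral (Polynomial k) (tt k) := isIntegral_algebraMap
    by_cases hi : i = 0
    · simp only [hi, if_true]
      rw [hi] at h1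
      exact h1.add h2
    · simp only [hi, if_false, add_zero]
      exact h1
  · refine ⟨fun i => if i = 0 then 1 else 0, -(e 0), ?_⟩
    rw [Fin.sum_univ_three]
    simp

theorem st_BDE (hW : ST_WPL) (hN : ST_NCP) (hD : ST_DET) (hT : ST_TRP) (hR : ST_RED) :
    ST_BDE := by
  classical
  intro k _ _ p _ _ n E β hn hp hE hβ hβE
  have hrr := bde_rr
  have hrn : 0 ≤ rr ^ n := pow_nonneg hrr.le n
  have hn1 : (1 : ℝ) ≤ n := by exact_mod_cast hn
  have hD1 : (1 : ℝ) ≤ 32 * (n : ℝ) := by linarith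
  have hcU : (Fintype.card (Fin 4 → Fin n → Fin 5) : ℝ) = ((5 : ℝ) ^ n) ^ 4 := by
    simp
  have hU0 : (0 : ℝ) ≤ ((5 : ℝ) ^ n) ^ 4 := by positivity
  rcases E.eq_empty_or_nonempty with hE0 | ⟨e0, he0⟩
  · rw [hE0]
    simp only [card_empty, Nat.cast_zero, zero_mul, mul_zero, add_zero]
    positivity
  obtain ⟨P0, hP0⟩ := bde_pt hR k e0 (hE e0 he0)
  choose F hFdeg hF using hW k n
  have hbad : ∀ P : Fin 3 → Om k, InCls P →
      (((univ : Finset (Fin 4 → Fin n → Fin 5)).filter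
        (fun u => ∀ i, MvPolynomial.aeval P (F u i) = 0)).card : ℝ) ≤
      20 * rr ^ n * ((5 : ℝ) ^ n) ^ 4 := by
    intro P hP
    refine le_trans ?_ (hN k P hP n)
    rw [Nat.cast_le]
    apply card_le_card
    intro u hu
    rw [mem_filter] at hu ⊢
    exact ⟨hu.1, (hF u (Om k) P hP.1.1).mpr hu.2⟩
  have hunion : ∀ (L : Finset (Fin 3 → Om k)) (c : ℝ), (∀ P ∈ L, InCls P) → (L.card : ℝ) ≤ c →
      (((univ : Finset (Fin 4 → Fin n → Fin 5)).filter
        (fun u => ∃ P ∈ L, ∀ i, MvPolynomial.aeval P (F u i) = 0)).card : ℝ) ≤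
      c * (20 * rr ^ n) * ((5 : ℝ) ^ n) ^ 4 := by
    intro L c hL hc
    have h1 : ((univ : Finset (Fin 4 → Fin n → Fin 5)).filter
        (fun u => ∃ P ∈ L, ∀ i, MvPolynomial.aeval P (F u i) = 0)) ⊆
        L.biUnion (fun P => (univ : Finset (Fin 4 → Fin n → Fin 5)).filter
          (fun u => ∀ i, MvPolynomial.aeval P (F u i) = 0)) := by
      intro u hu
      rw [mem_filter] at hu
      obtain ⟨_, P, hP, hu2⟩ := hu
      rw [mem_biUnion]
      exact ⟨P, hP, by rw [mem_filter]; exact ⟨mem_univ _, hu2⟩⟩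
    have h2 := (card_le_card h1).trans card_biUnion_le
    have h3 : (((univ : Finset (Fin 4 → Fin n → Fin 5)).filter
        (fun u => ∃ P ∈ L, ∀ i, MvPolynomial.aeval P (F u i) = 0)).card : ℝ) ≤
        ∑ P ∈ L, (((univ : Finset (Fin 4 → Fin n → Fin 5)).filter
          (fun u => ∀ i, MvPolynomial.aeval P (F u i) = 0)).card : ℝ) := by
      exact_mod_cast h2
    refine h3.trans ((sum_le_sum fun P hP => hbad P (hL P hP)).trans ?_)
    rw [sum_const, nsmul_eq_mul]
    have h4 : (L.card : ℝ) * (20 * rr ^ n * ((5 : ℝ) ^ n) ^ 4) ≤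
        c * (20 * rr ^ n * ((5 : ℝ) ^ n) ^ 4) := mul_le_mul_of_nonneg_right hc (by positivity)
    linarith
  have hZ : ∀ (u : Fin 4 → Fin n → Fin 5) (e : Fin 3 → k), e ∈ E →
      (dw (vA e) (vB e) u = 1 ↔ ∀ i, MvPolynomial.eval e (F u i) = 0) := by
    intro u e he
    rw [hF u k e (hE e he).1]
    have h5 : ∀ q : MvPolynomial (Fin 3) k, MvPolynomial.aeval e q = MvPolynomial.eval e q :=
      fun q => by rw [MvPolynomial.aeval_def, Algebra.algebraMap_self, MvPolynomial.eval₂_id]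
    simp only [h5]
  have hdeg : ∀ u l, (F u l).totalDegree ≤ 32 * n := fun u l => hFdeg u l
  have hmain := hT (Fin 4 → Fin n → Fin 5) (Fin 3 → k) E (fun u e => dw (vA e) (vB e) u = 1)
    β (4 * (32 * (n : ℝ)) ^ 4 * (20 * rr ^ n)) (16 * (32 * (n : ℝ)) ^ 8) hβ (by positivity)
    (by positivity) ?_ ?_ ?_
  · exact hmain
  · intro e he
    rw [hcU]
    refine (hβE e he).trans ?_
    rw [Nat.cast_le]
    apply card_le_card
    intro u hu
    simp only [mem_filter, mem_univ, true_and] at hu ⊢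
    exact hu
  · have hbig : (1 : ℝ) ≤ 4 * (32 * (n : ℝ)) ^ 4 := by
      have : (1 : ℝ) ≤ (32 * (n : ℝ)) ^ 4 := one_le_pow₀ hD1
      linarith
    have hbig2 : (32 * (n : ℝ)) ≤ 4 * (32 * (n : ℝ)) ^ 4 := by
      have h1 : (32 * (n : ℝ)) ^ 1 ≤ (32 * (n : ℝ)) ^ 4 := pow_le_pow_right₀ hD1 (by norm_num)
      rw [pow_one] at h1
      linarith
    rw [hcU]
    refine ⟨(univ : Finset (Fin 4 → Fin n → Fin 5)).filter
        (fun u => ∃ P ∈ ({P0} : Finset (Fin 3 → Om k)), ∀ i,
          MvPolynomial.aeval P (F u i) = 0), ?_, ?_⟩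
    · apply hunion
      · intro P hP
        rw [mem_singleton] at hP
        rw [hP]
        exact hP0
      · rw [card_singleton, Nat.cast_one]
        exact hbig
    intro u1 hu1
    have hf : ∃ l, F u1 l ≠ 0 := by
      by_contra h
      push Not at h
      apply hu1
      rw [mem_filter]
      refine ⟨mem_univ _, P0, mem_singleton_self _, ?_⟩
      intro i
      rw [h i, map_zero]
    obtain ⟨L1, hL1c, hL1, hDg⟩ := hD k p (32 * n) E hp hE (F u1) (hdeg u1) hf
    refine ⟨(univ : Finset (Fin 4 → Fin n → Fin 5)).filter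
        (fun u => ∃ P ∈ L1, ∀ i, MvPolynomial.aeval P (F u i) = 0), ?_, ?_⟩
    · apply hunion L1 _ hL1
      refine le_trans ?_ hbig2
      exact_mod_cast hL1c
    intro u2 hu2
    have hg : ∀ P ∈ L1, ∃ l, MvPolynomial.aeval P (F u2 l) ≠ 0 := by
      intro P hP
      by_contra h
      push Not at h
      apply hu2
      rw [mem_filter]
      exact ⟨mem_univ _, P, hP, h⟩
    obtain ⟨L2, hL2c, hL2, hDh⟩ := hDg (F u2) (hdeg u2) hg
    refine ⟨(univ : Finset (Fin 4 → Fin n → Fin 5)).filter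
        (fun u => ∃ P ∈ L2, ∀ i, MvPolynomial.aeval P (F u i) = 0), ?_, ?_⟩
    · apply hunion L2 _ hL2
      exact_mod_cast hL2c
    intro u3 hu3
    have hh : ∀ P ∈ L2, ∃ l, MvPolynomial.aeval P (F u3 l) ≠ 0 := by
      intro P hP
      by_contra h
      push Not at h
      apply hu3
      rw [mem_filter]
      exact ⟨mem_univ _, P, hP, h⟩
    have hfin := hDh (F u3) (hdeg u3) hh
    refine le_trans ?_ (show ((_ : ℕ) : ℝ) ≤ _ from (Nat.cast_le.mpr hfin).trans (by push_cast; exact le_rfl))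
    rw [Nat.cast_le]
    apply card_le_card
    intro e he
    simp only [mem_filter] at he ⊢
    obtain ⟨he1, z1, z2, z3⟩ := he
    refine ⟨he1, fun l => ⟨(hZ u1 e he1).mp z1 l, (hZ u2 e he1).mp z2 l, (hZ u3 e he1).mp z3 l⟩⟩
  · rw [Fintype.card_pos_iff]
    exact ⟨fun _ _ => 0⟩

end Pool.Agent.Helper14.XP
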