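import Pool.Agent.Helper81.XP.StA
import Pool.Agent.Helper81.XP.StB

set_option autoImplicit false

namespace Pool.Agent.Helper14.XP

open Pool.Agent.Helper81.XP
open scoped LinearAlgebra.Projectivization

/-- diagonal matrix -/
def sfx_D {K : Type} [Field K] (m n : K) (h : m * n = 1) : SL K :=
  ⟨!![m, 0; 0, n], by simp [Matrix.det_fin_two, h]⟩

theorem sfx_conj {K : Type} [Field K] (P g : SL K) : tr (P * g * P⁻¹) = tr g := by
  unfold tr
  rw [Matrix.SpecialLinearGroup.coe_mul, Matrix.trace_mul_comm, ← Matrix.SpecialLinearGroup.coe_mul]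
  rw [← mul_assoc, inv_mul_cancel, one_mul]

theorem sfx_ct {K : Type} [Field K] (P g h : SL K) :
    ct (P * g * P⁻¹) (P * h * P⁻¹) = P * ct g h * P⁻¹ := by
  unfold ct
  group

theorem sfx_det {K : Type} [Field K] (s : SL K) : s 0 0 * s 1 1 - s 0 1 * s 1 0 = 1 := by
  have h := s.2
  rw [Matrix.det_fin_two] at h
  exact h

theorem sfx_inv {K : Type} [Field K] (s : SL K) :
    ((s⁻¹ : SL K) : Matrix (Fin 2) (Fin 2) K) = !![s 1 1, -s 0 1; -s 1 0, s 0 0] := by
  rw [Matrix.SpecialLinearGroup.SL2_inv_expl]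
  rfl

/-- the trace of the commutator with a diagonal matrix -/
theorem sfx_tr1 {K : Type} [Field K] (m n : K) (h : m * n = 1) (s : SL K) :
    tr (ct (sfx_D m n h) s) - 2 = -(s 0 1 * s 1 0) * (m - n) ^ 2 := by
  have hd := sfx_det s
  have e : ct (sfx_D m n h) s = (sfx_D m n h * s * (sfx_D m n h)⁻¹) * s⁻¹ := rfl
  have e0 : ((sfx_D m n h * s * (sfx_D m n h)⁻¹ : SL K) : Matrix (Fin 2) (Fin 2) K) =
      !![s 0 0, m ^ 2 * s 0 1; n ^ 2 * s 1 0, s 1 1] := by
    rw [Matrix.SpecialLinearGroup.coe_mul, Matrix.SpecialLinearGroup.coe_mul, sfx_inv]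
    ext i j
    rw [Matrix.mul_apply, Fin.sum_univ_two, Matrix.mul_apply, Matrix.mul_apply, Fin.sum_univ_two,
      Fin.sum_univ_two]
    fin_cases i <;> fin_cases j <;> simp [sfx_D]
    · linear_combination (s 0 0) * h
    · ring
    · ring
    · linear_combination (s 1 1) * h
  unfold tr
  rw [e, Matrix.SpecialLinearGroup.coe_mul, e0, sfx_inv, Matrix.trace_fin_two]
  simp [Matrix.mul_apply, Fin.sum_univ_two]
  linear_combination 2 * hd - 2 * s 0 1 * s 1 0 * h

theorem sfx_tr2 {K : Type} [Field K] (m n : K) (h : m * n = 1) (s : SL K) :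
    tr (ct (sfx_D m n h) (s * sfx_D m n h * s⁻¹)) - 2 =
      (m - n) ^ 4 * (s 0 0 * s 0 1 * s 1 0 * s 1 1) := by
  have hd := sfx_det s
  rw [sfx_tr1]
  have e1 : (s * sfx_D m n h * s⁻¹) 0 1 = (n - m) * (s 0 0 * s 0 1) := by
    rw [Matrix.SpecialLinearGroup.coe_mul, Matrix.SpecialLinearGroup.coe_mul, sfx_inv]
    simp [sfx_D, Matrix.mul_apply, Fin.sum_univ_two]
    ring
  have e2 : (s * sfx_D m n h * s⁻¹) 1 0 = (m - n) * (s 1 0 * s 1 1) := by
    rw [Matrix.SpecialLinearGroup.coe_mul, Matrix.SpecialLinearGroup.coe_mul, sfx_inv]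
    simp [sfx_D, Matrix.mul_apply, Fin.sum_univ_two]
    ring
  rw [e1, e2]
  ring

theorem sfx_W1 {K : Type} [Field K] (m n : K) (h : m * n = 1) (s : SL K) :
    ((s * sfx_D m n h * s : SL K) : Matrix (Fin 2) (Fin 2) K) =
      !![m * s 0 0 ^ 2 + n * (s 0 1 * s 1 0), m * (s 0 0 * s 0 1) + n * (s 0 1 * s 1 1);
        m * (s 1 0 * s 0 0) + n * (s 1 1 * s 1 0), m * (s 0 1 * s 1 0) + n * s 1 1 ^ 2] := by
  rw [Matrix.SpecialLinearGroup.coe_mul, Matrix.SpecialLinearGroup.coe_mul]
  ext i j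
  rw [Matrix.mul_apply, Fin.sum_univ_two, Matrix.mul_apply, Matrix.mul_apply, Fin.sum_univ_two,
    Fin.sum_univ_two]
  fin_cases i <;> fin_cases j <;> simp [sfx_D] <;> ring

theorem sfx_diag {K : Type} [Field K] (g : SL K) (hg : ((g : Matrix (Fin 2) (Fin 2) K)) 0 1 = 0)
    (hg' : ((g : Matrix (Fin 2) (Fin 2) K)) 1 0 = 0) (m n : K)
    (h0 : ((g : Matrix (Fin 2) (Fin 2) K)) 0 0 = m) (h1 : ((g : Matrix (Fin 2) (Fin 2) K)) 1 1 = n)
    (h : m * n = 1) : g = sfx_D m n h := by
  ext i j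
  fin_cases i <;> fin_cases j <;> simp [sfx_D, hg, hg', h0, h1]

/-- diagonalisation -/
theorem sfx_dz {K : Type} [Field K] [IsAlgClosed K] (X : SL K) (hX : tr X ^ 2 ≠ 4) :
    ∃ (P : SL K) (m n : K) (h : m * n = 1), m ≠ n ∧ X = P * sfx_D m n h * P⁻¹ := by
  have hd := sfx_det X
  have htr : tr X = X 0 0 + X 1 1 := Matrix.trace_fin_two _
  obtain ⟨m, hm⟩ : ∃ m : K, m ^ 2 - (X 0 0 + X 1 1) * m + 1 = 0 := by
    have := IsAlgClosed.exists_root (Polynomial.X ^ 2 - Polynomial.C (X 0 0 + X 1 1) *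
      Polynomial.X + 1 : Polynomial K) (by
        have : (Polynomial.X ^ 2 - Polynomial.C (X 0 0 + X 1 1) *
          Polynomial.X + 1 : Polynomial K).degree = 2 := by compute_degree!
        rw [this]
        decide)
    obtain ⟨m, hm⟩ := this
    refine ⟨m, ?_⟩
    simpa [Polynomial.IsRoot] using hm
  have hm0 : m ≠ 0 := by
    intro h
    rw [h] at hm
    simp at hm
  set n : K := X 0 0 + X 1 1 - m with hn
  have hmn : m * n = 1 := by rw [hn]; linear_combination -hm
  have hne : m ≠ n := by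
    intro h
    apply hX
    rw [htr]
    have h1 : X 0 0 + X 1 1 = m + n := by rw [hn]; ring
    rw [h1, ← h]
    rw [← h] at hmn
    linear_combination 4 * hmn
  have key : ∃ (Q : SL K) (m n : K), m * n = 1 ∧ m ≠ n ∧
      (X : Matrix (Fin 2) (Fin 2) K) 0 0 * Q 0 0 + X 0 1 * Q 1 0 = m * Q 0 0 ∧
      (X : Matrix (Fin 2) (Fin 2) K) 1 0 * Q 0 0 + X 1 1 * Q 1 0 = m * Q 1 0 ∧
      (X : Matrix (Fin 2) (Fin 2) K) 0 0 * Q 0 1 + X 0 1 * Q 1 1 = n * Q 0 1 ∧
      (X : Matrix (Fin 2) (Fin 2) K) 1 0 * Q 0 1 + X 1 1 * Q 1 1 = n * Q 1 1 := by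
    by_cases hq : X 0 1 = 0
    · have hne2 : X 0 0 ≠ X 1 1 := by
        intro h
        apply hX
        rw [htr, h]
        rw [hq, h] at hd
        linear_combination 4 * hd
      have hne3 : X 0 0 - X 1 1 ≠ 0 := sub_ne_zero.mpr hne2
      refine ⟨⟨!![1, 0; X 1 0 / (X 0 0 - X 1 1), 1], by simp [Matrix.det_fin_two]⟩, X 0 0, X 1 1,
        ?_, hne2, ?_, ?_, ?_, ?_⟩
      · rw [hq] at hd
        linear_combination hd
      · simp [hq]
      · simp
        field_simp
        ring
      · simp [hq]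
      · simp
    · have hnm : n - m ≠ 0 := sub_ne_zero.mpr hne.symm
      refine ⟨⟨!![X 0 1, 1 / (n - m); m - X 0 0, (n - X 0 0) / (X 0 1 * (n - m))], ?_⟩, m, n, hmn,
        hne, ?_, ?_, ?_, ?_⟩
      · rw [Matrix.det_fin_two]
        simp
        field_simp
        ring
      · simp
        ring
      · simp
        rw [hn] at *
        linear_combination (-1 : K) * hd - hm
      · simp
        field_simp
        ring
      · simp
        field_simp
        have h5 : n ^ 2 - (X 0 0 + X 1 1) * n + 1 = 0 := by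
          rw [hn]; linear_combination hm
        linear_combination (-1 : K) * hd - h5
  obtain ⟨Q, m, n, h, h', h1, h2, h3, h4⟩ := key
  refine ⟨Q, m, n, h, h', ?_⟩
  rw [eq_mul_inv_iff_mul_eq]
  ext i j
  rw [Matrix.SpecialLinearGroup.coe_mul, Matrix.SpecialLinearGroup.coe_mul, Matrix.mul_apply,
    Matrix.mul_apply, Fin.sum_univ_two, Fin.sum_univ_two]
  fin_cases i <;> fin_cases j <;> simp [sfx_D]
  · linear_combination h1
  · linear_combination h3
  · linear_combination h2
  · linear_combination h4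

theorem st_SFX (hC : ST_CFP) : ST_SFX := by
  intro K _ _ X Z hX hXZ hex
  obtain ⟨P, m, n, h, hmn, hXP⟩ := sfx_dz X hX
  set D := sfx_D m n h with hD
  set W := P⁻¹ * Z * P with hW
  have hZP : Z = P * W * P⁻¹ := by rw [hW]; group
  have hmn4 : (m - n) ^ 4 ≠ 0 := pow_ne_zero _ (sub_ne_zero.mpr hmn)
  have hWd := sfx_det W
  have hc : tr (ct X Z) ≠ 2 := by
    intro h2
    obtain ⟨ξ, h3, h4⟩ := (hC K X Z).mp h2
    exact hXZ ξ h3 h4
  rw [hXP, hZP, sfx_ct, sfx_conj] at hc
  have hbc : W 0 1 * W 1 0 ≠ 0 := by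
    intro h0
    apply hc
    have := sfx_tr1 m n h W
    rw [h0] at this
    linear_combination this
  have hb : W 0 1 ≠ 0 := left_ne_zero_of_mul hbc
  have hcc : W 1 0 ≠ 0 := right_ne_zero_of_mul hbc
  have hred : ∀ s : SL K, tr (ct X ((P * s * P⁻¹) * X * (P * s * P⁻¹)⁻¹)) =
      2 + (m - n) ^ 4 * (s 0 0 * s 0 1 * s 1 0 * s 1 1) := by
    intro s
    have e1 : (P * s * P⁻¹) * X * (P * s * P⁻¹)⁻¹ = P * (s * D * s⁻¹) * P⁻¹ := by
      rw [hXP]; group
    rw [e1]
    nth_rewrite 1 [hXP]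
    rw [sfx_ct, sfx_conj]
    have := sfx_tr2 m n h s
    rw [← this]
    ring
  have e1 : Z = P * W * P⁻¹ := hZP
  have e2 : Z * X * Z = P * (W * D * W) * P⁻¹ := by rw [hXP, hZP]; group
  have h2' : m ^ 2 * n ^ 2 = 1 := by rw [← mul_pow, h, one_pow]
  have e3 : Z * X * X * Z = P * (W * sfx_D (m ^ 2) (n ^ 2) h2' * W) * P⁻¹ := by
    have e4 : D * D = sfx_D (m ^ 2) (n ^ 2) h2' := by
      ext i j
      rw [Matrix.SpecialLinearGroup.coe_mul, Matrix.mul_apply, Fin.sum_univ_two]
      fin_cases i <;> fin_cases j <;> simp [hD, sfx_D] <;> ring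
    rw [← e4, hXP, hZP]; group
  have hf : ∀ s : SL K, s 0 0 * s 0 1 * s 1 0 * s 1 1 ≠ 0 →
      tr (ct X ((P * s * P⁻¹) * X * (P * s * P⁻¹)⁻¹)) ≠ 2 := by
    intro s hs h2
    rw [hred s] at h2
    exact mul_ne_zero hmn4 hs (by linear_combination h2)
  by_cases ha : W 0 0 = 0
  · by_cases hd : W 1 1 = 0
    · exfalso
      apply hex
      constructor
      · rw [hZP, sfx_conj]
        unfold tr
        rw [Matrix.trace_fin_two, ha, hd, add_zero]
      · have e5 : X * Z = P * (D * W) * P⁻¹ := by rw [hXP, hZP]; group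
        rw [e5, sfx_conj]
        unfold tr
        rw [Matrix.trace_fin_two, Matrix.SpecialLinearGroup.coe_mul, Matrix.mul_apply,
          Matrix.mul_apply, Fin.sum_univ_two, Fin.sum_univ_two]
        simp [hD, sfx_D, ha, hd]
    · have hbc1 : W 0 1 * W 1 0 = -1 := by
        rw [ha] at hWd
        linear_combination -hWd
      have hn0 : n ≠ 0 := right_ne_zero_of_mul_eq_one h
      have gen : ∀ (m' n' : K) (h' : m' * n' = 1), W 1 1 ^ 2 ≠ m' ^ 2 →
          (W * sfx_D m' n' h' * W) 0 0 * (W * sfx_D m' n' h' * W) 0 1 *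
            (W * sfx_D m' n' h' * W) 1 0 * (W * sfx_D m' n' h' * W) 1 1 ≠ 0 := by
        intro m' n' h' hne
        have hn' : n' ≠ 0 := right_ne_zero_of_mul_eq_one h'
        rw [sfx_W1]
        simp [ha, hbc1, hn', hb, hcc, hd]
        intro h6
        apply hne
        linear_combination m' * h6 - W 1 1 ^ 2 * h' + 0 * h
      by_cases h7 : W 1 1 ^ 2 = m ^ 2
      · right; right
        rw [e3]
        apply hf
        apply gen
        intro h8
        have h9 : m ^ 2 = 1 := by
          have h10 : (m ^ 2) * (m ^ 2 - 1) = 0 := by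
            rw [h7] at h8
            linear_combination -h8
          rcases mul_eq_zero.mp h10 with h11 | h11
          · exact absurd (pow_eq_zero_iff (two_ne_zero) |>.mp h11) (left_ne_zero_of_mul_eq_one h)
          · linear_combination h11
        apply hmn
        linear_combination n * h9 - m * h
      · right; left
        rw [e2]
        apply hf
        exact gen m n h h7
  · by_cases hd : W 1 1 = 0
    · have hbc1 : W 0 1 * W 1 0 = -1 := by
        rw [hd] at hWd
        linear_combination -hWd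
      have gen : ∀ (m' n' : K) (h' : m' * n' = 1), W 0 0 ^ 2 ≠ n' ^ 2 →
          (W * sfx_D m' n' h' * W) 0 0 * (W * sfx_D m' n' h' * W) 0 1 *
            (W * sfx_D m' n' h' * W) 1 0 * (W * sfx_D m' n' h' * W) 1 1 ≠ 0 := by
        intro m' n' h' hne
        have hm' : m' ≠ 0 := left_ne_zero_of_mul_eq_one h'
        rw [sfx_W1]
        simp [ha, hbc1, hm', hb, hcc, hd]
        intro h6
        apply hne
        linear_combination n' * h6 - W 0 0 ^ 2 * h'
      by_cases h7 : W 0 0 ^ 2 = n ^ 2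
      · right; right
        rw [e3]
        apply hf
        apply gen
        intro h8
        have h9 : n ^ 2 = 1 := by
          have h10 : (n ^ 2) * (n ^ 2 - 1) = 0 := by
            rw [h7] at h8
            linear_combination -h8
          rcases mul_eq_zero.mp h10 with h11 | h11
          · exact absurd (pow_eq_zero_iff (two_ne_zero) |>.mp h11) (right_ne_zero_of_mul_eq_one h)
          · linear_combination h11
        apply hmn
        linear_combination n * h - m * h9
      · right; left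
        rw [e2]
        apply hf
        exact gen m n h h7
    · left
      have h12 := hf W (mul_ne_zero (mul_ne_zero (mul_ne_zero ha hb) hcc) hd)
      rw [← hZP] at h12
      exact h12

end Pool.Agent.Helper14.XP
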