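import Pool.Agent.Helper81.XP.StB

set_option autoImplicit false

namespace Pool.Agent.Helper14.XP

open Pool.Agent.Helper81.XP

theorem vap_inj (k : Type) [Field k] : Function.Injective (algebraMap (Polynomial k) (Om k)) := by
  rw [IsScalarTower.algebraMap_eq (Polynomial k) (RatFunc k) (Om k)]
  exact (algebraMap (RatFunc k) (Om k)).injective.comp (RatFunc.algebraMap_injective k)

theorem vap_C (k : Type) [Field k] (c : k) :
    algebraMap (Polynomial k) (Om k) (Polynomial.C c) = algebraMap k (Om k) c := by
  rw [← Polynomial.algebraMap_eq, ← IsScalarTower.algebraMap_apply]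

theorem st_VAP : ST_VAP := by
  intro k _ t0
  refine ⟨?_, ?_⟩
  · set φ := algebraMap (Polynomial k) (Om k) with hφ
    have hmem : tt k - algebraMap k (Om k) t0 ∈ φ.range := by
      refine ⟨Polynomial.X - Polynomial.C t0, ?_⟩
      rw [map_sub, hφ, vap_C]
      rfl
    set x : φ.range := ⟨tt k - algebraMap k (Om k) t0, hmem⟩ with hx
    have hI : Ideal.span {x} ≠ ⊤ := by
      intro h
      rw [Ideal.span_singleton_eq_top] at h
      obtain ⟨y, hy⟩ := isUnit_iff_exists_inv.mp h
      obtain ⟨q, hq⟩ := y.2
      have h1 : φ ((Polynomial.X - Polynomial.C t0) * q) = φ 1 := by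
        have e1 : φ (Polynomial.C t0) = algebraMap k (Om k) t0 := vap_C k t0
        rw [map_mul, map_one, map_sub, hq, e1]
        exact congrArg Subtype.val hy
      have h2 := vap_inj k h1
      have h3 := congrArg (Polynomial.eval t0) h2
      simp at h3
    obtain ⟨B, hB1, hB2⟩ := Ideal.image_subset_nonunits_valuationSubring (Ideal.span {x}) hI
    refine ⟨B, ?_, ?_⟩
    · intro c
      apply hB1
      exact ⟨Polynomial.C c, vap_C k c⟩
    · have h4 := hB2 ⟨x, Ideal.subset_span rfl, rfl⟩
      exact (ValuationSubring.mem_nonunits_iff B).mp h4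
  · intro O hO
    obtain ⟨hc, ht⟩ := hO
    have hc1 : ∀ c : k, c ≠ 0 → O.valuation (algebraMap k (Om k) c) = 1 := by
      intro c hc0
      apply le_antisymm ((ValuationSubring.valuation_le_one_iff _ _).mpr (hc c))
      have h1 := (ValuationSubring.valuation_le_one_iff _ _).mpr (hc c⁻¹)
      rw [map_inv₀, map_inv₀] at h1
      have h2 : O.valuation (algebraMap k (Om k) c) ≠ 0 := by
        rw [Valuation.ne_zero_iff]
        intro h3
        exact hc0 ((algebraMap k (Om k)).injective (by rw [h3, map_zero]))
      exact (inv_le_one₀ (zero_lt_iff.mpr h2)).mp h1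
    have htO : tt k ∈ O := by
      have h1 : tt k = (tt k - algebraMap k (Om k) t0) + algebraMap k (Om k) t0 := by ring
      rw [h1]
      exact O.add_mem _ _ ((ValuationSubring.valuation_le_one_iff _ _).mp ht.le) (hc t0)
    have hp : ∀ q : Polynomial k, algebraMap (Polynomial k) (Om k) q ∈ O := by
      intro q
      induction q using Polynomial.induction_on' with
      | add p q hp hq =>
        rw [map_add]
        exact O.add_mem _ _ hp hq
      | monomial n a =>
        rw [← Polynomial.C_mul_X_pow_eq_monomial, map_mul, map_pow, vap_C]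
        exact O.mul_mem _ _ (hc a) (pow_mem htO n)
    refine ⟨hc1, ?_, ?_⟩
    · intro a ha
      rw [ValuationSubring.valuation_le_one_iff]
      have ha' : IsIntegral O a := by
        obtain ⟨p, hpm, hpa⟩ := ha
        let ψ : Polynomial k →+* O := (algebraMap (Polynomial k) (Om k)).codRestrict O.toSubring hp
        refine ⟨p.map ψ, hpm.map ψ, ?_⟩
        rw [Polynomial.eval₂_map]
        exact hpa
      obtain ⟨y, hy⟩ := IsIntegrallyClosed.isIntegral_iff.mp ha'
      rw [← hy]
      exact y.2
    · intro q hq
      by_contra h0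
      have h1 := hc1 _ h0
      have h2 := Polynomial.modByMonic_add_div q (Polynomial.X - Polynomial.C t0)
      rw [Polynomial.modByMonic_X_sub_C_eq_C_eval] at h2
      have h3 : algebraMap k (Om k) (q.eval t0) = algebraMap (Polynomial k) (Om k) q -
          (tt k - algebraMap k (Om k) t0) *
            algebraMap (Polynomial k) (Om k) (q /ₘ (Polynomial.X - Polynomial.C t0)) := by
        have h5 := congrArg (algebraMap (Polynomial k) (Om k)) h2
        rw [map_add, map_mul, vap_C, map_sub, vap_C] at h5
        rw [← h5]
        unfold tt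
        ring
      rw [h3] at h1
      have h4 : O.valuation (algebraMap (Polynomial k) (Om k) q -
          (tt k - algebraMap k (Om k) t0) *
            algebraMap (Polynomial k) (Om k) (q /ₘ (Polynomial.X - Polynomial.C t0))) < 1 := by
        refine lt_of_le_of_lt (Valuation.map_sub _ _ _) (max_lt hq ?_)
        rw [map_mul]
        exact mul_lt_one_of_lt_of_le ht ((ValuationSubring.valuation_le_one_iff _ _).mpr (hp _))
      exact absurd h1 h4.ne

end Pool.Agent.Helper14.XP
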